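import Pool.Agent.N437.SQ.Stm
import Pool.Agent.N329.SQ.F1
import Pool.Agent.N727.SQ.F2
import Pool.Agent.N75.SQ.F3
import Pool.Agent.N219.SQ.F4
import Pool.Agent.N645.SQ.F5
import Pool.Agent.N555.SQ.F6A
import Pool.Agent.N905.SQ.F6
import Pool.Agent.N49.SQ.F7
import Pool.Agent.N28.SQ.F8

/-!
# MP_78fef3_co: no quasiregular subgraphs of graphs with linearly many edges

For every constant `C` there is a `k` such that for every `F` there is a graph with `n` vertices and at least `F n`
edges in which no subgraph has all its degrees strictly between `k` and `C k`. So the answer to the question of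
Sauer is no.

The graphs are layered random graphs in the manner of Pyber, Rödl and Szemerédi: `q ^ (3 ^ L)` vertices, and for each
`i < L` a layer of `q ^ (3 ^ L - 3 ^ i)` vertices; every vertex of the first kind has one random neighbour in each
layer.
-/

set_option autoImplicit false

namespace Pool.Agent.Results.MP_78fef3_co.NoQuasiregular

/-- The subgraph `H` of `G` is `(k, C)`-quasiregular: it has a vertex, and all its degrees are strictly between `k`
and `C k`. -/
def IsQuasiregular {n : ℕ} {G : SimpleGraph (Fin n)} (H : G.Subgraph) (k : ℕ) (C : ℝ) : Prop :=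
  H.verts.Nonempty ∧ ∀ x ∈ H.verts, (k : ℝ) < (H.neighborSet x).ncard ∧
    ((H.neighborSet x).ncard : ℝ) < C * k

/-- **The answer to the question of Sauer is no.** -/
theorem result : ∀ C : ℝ, ∃ k : ℕ, 1 ≤ k ∧ ∀ F : ℝ, ∃ (n : ℕ) (G : SimpleGraph (Fin n)),
    1 ≤ n ∧ F * n ≤ (G.edgeSet.ncard : ℝ) ∧ ∀ H : G.Subgraph, ¬ IsQuasiregular H k C := by
  intro C
  obtain ⟨k, hk, h⟩ :=
    Pool.Agent.N28.SQ.t_F8
      (Pool.Agent.N645.SQ.t_F5 Pool.Agent.N329.SQ.t_F1 Pool.Agent.N727.SQ.t_F2
        Pool.Agent.N75.SQ.t_F3 Pool.Agent.N219.SQ.t_F4)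
      (Pool.Agent.N905.SQ.t_F6 Pool.Agent.N555.SQ.t_F6A) Pool.Agent.N49.SQ.t_F7 C
  refine ⟨k, hk, fun F => ?_⟩
  obtain ⟨n, G, h1, h2, h3⟩ := h F
  exact ⟨n, G, h1, h2, fun H hH => h3 H hH.1 hH.2⟩

end Pool.Agent.Results.MP_78fef3_co.NoQuasiregular
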