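import Pool.Statements.S11986
import Pool.Agent.N437.QR.Fin1
import Pool.Agent.N881.QR.WT
import Pool.Agent.N427.QR.AVG
import Pool.Agent.N415.QR.TEN
import Pool.Agent.N540.QR.ZB
import Pool.Agent.N504.QR.ZEX
import Pool.Agent.N291.QR.QR1
import Pool.Agent.N18.QR.VAR
import Pool.Agent.N521.QR.FAM
import Pool.Agent.N296.QR.DIAG
import Pool.Agent.N78.QR.CORE
import Pool.Agent.N93.QR.PAR
import Pool.Agent.N82.QR.LIM

set_option autoImplicit false
open Filter Topology
open Pool Pool.MP_e10300_co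

namespace Pool.Agent.S11986

/-- The negation of the preceding statement: There are s≥2, a>0 such that whenever p(n)/((log n)^a n^(-1/s))→∞ and n-vertex graphs have normalized labelled K2 and C4 counts tending to 1 and bounded normalized K_{s,t} counts for each t, the normalized triangle count tends to 1. -/
theorem result :
    ¬ (∃ s : ℕ, 2 ≤ s ∧ ∃ a : ℝ, 0 < a ∧
      ∀ p : ℕ → ℝ, (∀ n, 0 < p n ∧ p n ≤ 1) →
        Tendsto (fun n : ℕ => p n / ((Real.log n) ^ a * (n : ℝ) ^ (-(1 / (s : ℝ))))) atTop atTop →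
        ∀ G : ∀ n : ℕ, SimpleGraph (Fin n),
          Tendsto (fun n : ℕ =>
            (Set.ncard {f : Fin 2 → Fin n | Function.Injective f ∧
                ∀ i j, (⊤ : SimpleGraph (Fin 2)).Adj i j → (G n).Adj (f i) (f j)} : ℝ) /
              ((n.descFactorial 2 : ℝ) * p n ^ 1)) atTop (𝓝 1) →
          Tendsto (fun n : ℕ =>
            (Set.ncard {f : Fin 4 → Fin n | Function.Injective f ∧
                ∀ i j, (SimpleGraph.cycleGraph 4).Adj i j → (G n).Adj (f i) (f j)} : ℝ) /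
              ((n.descFactorial 4 : ℝ) * p n ^ 4)) atTop (𝓝 1) →
          (∀ t : ℕ, 1 ≤ t → ∃ C : ℝ, ∀ n : ℕ,
            (Set.ncard {f : Fin s ⊕ Fin t → Fin n | Function.Injective f ∧
                ∀ i j, (completeBipartiteGraph (Fin s) (Fin t)).Adj i j → (G n).Adj (f i) (f j)} : ℝ) /
              ((n.descFactorial (s + t) : ℝ) * p n ^ (s * t)) ≤ C) →
          Tendsto (fun n : ℕ =>
            (Set.ncard {f : Fin 3 → Fin n | Function.Injective f ∧
                ∀ i j, (SimpleGraph.cycleGraph 3).Adj i j → (G n).Adj (f i) (f j)} : ℝ) /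
              ((n.descFactorial 3 : ℝ) * p n ^ 3)) atTop (𝓝 1)) :=
  Pool.Agent.N437.QR.fin1
    (Pool.Agent.N78.QR.t_CORE
      (Pool.Agent.N521.QR.t_FAM Pool.Agent.N881.QR.t_WT Pool.Agent.N291.QR.t_QR1
        (Pool.Agent.N18.QR.t_VAR Pool.Agent.N881.QR.t_WT Pool.Agent.N427.QR.t_AVG
          Pool.Agent.N415.QR.t_TEN Pool.Agent.N291.QR.t_QR1))
      Pool.Agent.N296.QR.t_DIAG)
    Pool.Agent.N504.QR.t_ZEX Pool.Agent.N93.QR.t_PAR
    (Pool.Agent.N82.QR.t_LIM Pool.Agent.N540.QR.t_ZB) Pool.Agent.N437.QR.t_GR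

end Pool.Agent.S11986
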