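import Pool.Agent.N437.QR.Fin2
import Pool.Agent.N881.QR.WT
import Pool.Agent.N427.QR.AVG
import Pool.Agent.N415.QR.TEN
import Pool.Agent.N540.QR.ZB
import Pool.Agent.N504.QR.ZEX
import Pool.Agent.N291.QR.QR1
import Pool.Agent.N18.QR.VAR
import Pool.Agent.N521.QR.FAM
import Pool.Agent.N296.QR.DIAG
import Pool.Agent.N78.QR.CORE
import Pool.Agent.N93.QR.PAR
import Pool.Agent.N82.QR.LIM

/-!
# MP_e47ff0_co: the triangle count is not forced in almost dense quasirandom graphs

There are `p(n) = n^(-o(1))` and graphs `G n` with `n` vertices, exactly `p n * (n choose 2)` edges,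
asymptotically the right number of 4-cycles and bounded normalised counts of all fixed graphs, for which the
normalised number of triangles tends to `1 / e` and not to `1`. So the answer to Q1 is no.

Construction: the vertices get independent uniform types in `{±1}^d`, `d = m^3`, and the edges are independent
with the probabilities `p ∏ i, (1 - a i b i / m)`, where `m` tends to infinity slowly.
-/

set_option autoImplicit false

namespace Pool.Agent.Results.MP_e47ff0_co.TrianglesNotForced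

open Filter Topology

/-- The number of the injective maps from the vertices of `F` to the vertices of `G` which send edges to
edges. -/
noncomputable def emb {k n : ℕ} (F : SimpleGraph (Fin k)) (G : SimpleGraph (Fin n)) : ℕ :=
  {f : Fin k → Fin n | Function.Injective f ∧ ∀ i j, F.Adj i j → G.Adj (f i) (f j)}.ncard

/-- The normalised count `emb(F, G) / (n (n - 1) ... (n - k + 1) p ^ e(F))`. -/
noncomputable def sp {k n : ℕ} (p : ℝ) (F : SimpleGraph (Fin k)) (G : SimpleGraph (Fin n)) : ℝ :=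
  (emb F G : ℝ) / ((n.descFactorial k : ℝ) * p ^ F.edgeSet.ncard)

/-- **The answer to Q1 is no.** -/
theorem result : ∃ (p : ℕ → ℝ) (G : ∀ n : ℕ, SimpleGraph (Fin n)),
    (∀ n, 0 < p n ∧ p n ≤ 1) ∧
    Tendsto (fun n : ℕ => Real.log (1 / p n) / Real.log n) atTop (𝓝 0) ∧
    -- condition 1
    (∀ n, ((G n).edgeSet.ncard : ℝ) = p n * (n.choose 2 : ℝ)) ∧
    -- condition 2
    Tendsto (fun n : ℕ => sp (p n) (SimpleGraph.cycleGraph 4) (G n)) atTop (𝓝 1) ∧
    -- condition 3
    (∀ (k : ℕ) (F : SimpleGraph (Fin k)), ∃ C : ℝ, ∀ n : ℕ, sp (p n) F (G n) ≤ C) ∧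
    -- triangles
    Tendsto (fun n : ℕ => sp (p n) (⊤ : SimpleGraph (Fin 3)) (G n)) atTop (𝓝 (Real.exp (-1))) ∧
    ¬ Tendsto (fun n : ℕ => sp (p n) (⊤ : SimpleGraph (Fin 3)) (G n)) atTop (𝓝 1) := by
  obtain ⟨p, G, h1, h2, h3, h4, h5, h6⟩ := Pool.Agent.N437.QR.fin2
    (Pool.Agent.N78.QR.t_CORE
      (Pool.Agent.N521.QR.t_FAM Pool.Agent.N881.QR.t_WT Pool.Agent.N291.QR.t_QR1
        (Pool.Agent.N18.QR.t_VAR Pool.Agent.N881.QR.t_WT Pool.Agent.N427.QR.t_AVG
          Pool.Agent.N415.QR.t_TEN Pool.Agent.N291.QR.t_QR1))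
      Pool.Agent.N296.QR.t_DIAG)
    Pool.Agent.N504.QR.t_ZEX Pool.Agent.N93.QR.t_PAR
    (Pool.Agent.N82.QR.t_LIM Pool.Agent.N540.QR.t_ZB) Pool.Agent.N437.QR.t_GR
  have card : ∀ {k : ℕ} (F : SimpleGraph (Fin k)), (Pool.Agent.N437.QR.Ee F).card = F.edgeSet.ncard := by
    intro k F
    rw [← Set.ncard_coe_finset]
    congr 1
    ext e
    simpa using Pool.Agent.N437.QR.mem_Ee F e
  have c4 : (SimpleGraph.cycleGraph 4).edgeSet.ncard = 4 := by
    rw [← card]
    exact (Pool.Agent.N504.QR.t_ZEX.2.1 _ 0 (Pool.Agent.N437.QR.mem_Ee _)).1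
  have c3 : (SimpleGraph.cycleGraph 3).edgeSet.ncard = 3 := by
    rw [← card]
    exact (Pool.Agent.N504.QR.t_ZEX.2.2 _ 0 (Pool.Agent.N437.QR.mem_Ee _)).1
  have e3 : (⊤ : SimpleGraph (Fin 3)) = SimpleGraph.cycleGraph 3 := by
    ext i j
    revert i j
    decide
  have h7 : Tendsto (fun n : ℕ => sp (p n) (⊤ : SimpleGraph (Fin 3)) (G n)) atTop
      (𝓝 (Real.exp (-1))) := by
    rw [e3]
    simp only [sp, c3]
    exact h6
  refine ⟨p, G, h1, h2, h3, ?_, h5, h7, ?_⟩
  · simp only [sp, c4]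
    exact h4
  · intro h
    have h8 := tendsto_nhds_unique h h7
    have h9 : Real.exp (-1) < 1 := by
      rw [Real.exp_lt_one_iff]
      norm_num
    linarith

end Pool.Agent.Results.MP_e47ff0_co.TrianglesNotForced
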